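import Mathlib
import Pool.Agent.T6.H7.LP.F

/-!
# The Legendre-symbol determinants `D_p^+` with four parameters

For every prime `p > 3` the determinant of the matrix
`x + (j+k|p) + (j|p) y + (k|p) z + (jk|p) w`, `0 ≤ j, k ≤ (p-3)/2`, is
`(2|p) 2^((p-3)/2) ((p b - 2 a) x + (a - 2 b) v)` if `p ≡ 1 (mod 4)`, where
`ε^h(p) = a + b √p`, and `2^((p-3)/2) (v - 2 x)` if `p ≡ 3 (mod 4)`; here
`v = w x - (y+1)(z+1)`.

Method: with `τ` the Gauss sum and `V` the Vandermonde matrix of the `ζ^r`, `r` a quadratic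
residue, `τ (χ(j+k) + x)` is `2 VᵀV + (1 + τ x) 1 1ᵀ - p e_0 e_0ᵀ`, and the vectors `1`, `e_0` are
`Vᵀ y` for explicit `y`; the remaining sums and the Vandermonde determinant are computed.
-/

set_option autoImplicit false

namespace Pool.Agent.Results.MP_29211c_nt.QOne

open Finset Matrix Pool.Agent.Helper184.Chapman Pool.Agent.R945 Pool.Agent.R945.TP NumberField Module
open Pool.Agent.T6.H7.LP

/-- the determinant of `[x + (j+k|p) + (j|p) y + (k|p) z + (jk|p) w]`, `0 ≤ j, k ≤ (p-3)/2` -/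
noncomputable def D (p : ℕ) [Fact p.Prime] (x y z w : ℂ) : ℂ :=
  (Matrix.of fun j k : Fin ((p - 1) / 2) =>
    x + ((legendreSym p ((j : ℤ) + (k : ℤ)) : ℤ) : ℂ) + ((legendreSym p (j : ℤ) : ℤ) : ℂ) * y
      + ((legendreSym p (k : ℤ) : ℤ) : ℂ) * z + ((legendreSym p ((j : ℤ) * (k : ℤ)) : ℤ) : ℂ) * w).det

/-- `ε` is the fundamental unit `> 1` of `K`, seen in `ℝ` through `φ` -/
def IsFundamentalUnit (K : Type) [Field K] [NumberField K] (φ : K →+* ℝ) (ε : ℝ) : Prop :=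
  1 < ε ∧ ∀ x : ℝ, (∃ v : (𝓞 K)ˣ, φ ((v : 𝓞 K) : K) = x) ↔ ∃ n : ℤ, x = ε ^ n ∨ x = -ε ^ n

lemma D_eq (p : ℕ) [Fact p.Prime] (k : ℕ) (hm : p = 2 * (k + 1) + 1) (D0 δ : ℂ)
    (hx : ∀ x : ℂ, (HX p (k + 1) x).det = D0 + δ * x) (hne : D0 ≠ 0 ∨ δ ≠ 0) (x y z w : ℂ) :
    D p x y z w = D0 * ((1 + y) * (1 + z) - w * x) + δ * x := by
  have hm1 : (p - 1) / 2 = k + 1 := by omega
  have h := four (HX p (k + 1) 0) (by simp [HX, MulChar.map_zero]) D0 δ (by
    intro t
    rw [← hx t]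
    congr 1
    ext i j
    simp [HX]) hne x y z w
  rw [← h]
  unfold D
  rw [hm1]
  congr 1
  ext i j
  simp only [Matrix.of_apply, HX, chi_apply]
  unfold legendreSym
  push_cast
  rw [map_mul]
  simp only [Fin.val_zero, Nat.cast_zero, zero_add, add_zero]
  push_cast
  ring

theorem result (p : ℕ) [Fact p.Prime] (hp3 : 3 < p) :
    (p % 4 = 1 → ∀ (K : Type) [Field K] [NumberField K], finrank ℚ K = 2 →
      (∃ β : K, β ^ 2 = (p : K)) → ∀ (φ : K →+* ℝ) (ε : ℝ), IsFundamentalUnit K φ ε →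
      ∀ a b : ℚ, ε ^ classNumber K = a + b * Real.sqrt p →
      ∀ x y z w : ℂ, D p x y z w = (legendreSym p 2 : ℤ) * 2 ^ ((p - 3) / 2) *
        (((p : ℂ) * b - 2 * a) * x + ((a : ℂ) - 2 * b) * (w * x - (y + 1) * (z + 1)))) ∧
    (p % 4 = 3 → ∀ x y z w : ℂ, D p x y z w =
      2 ^ ((p - 3) / 2) * ((w * x - (y + 1) * (z + 1)) - 2 * x)) := by
  have hp : p.Prime := Fact.out
  obtain ⟨k, hm⟩ : ∃ k, p = 2 * (k + 1) + 1 := by
    rcases hp.eq_two_or_odd with h | h
    · omega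
    · exact ⟨p / 2 - 1, by omega⟩
  have hk : (p - 3) / 2 = k := by omega
  have hk1 : k + 1 - 1 = k := rfl
  have hm2 : 2 ≤ k + 1 := by
    by_contra hcon
    have : k = 0 := by omega
    subst this
    omega
  rw [hk]
  have h2k : (2 : ℂ) ^ k ≠ 0 := pow_ne_zero _ two_ne_zero
  constructor
  · intro h1 K _ _ h2 ⟨β, hβ⟩ φ ε hε a b hab x y z w
    obtain ⟨hR, -⟩ := RQ.prod_res h1 K h2 β hβ φ ε hε
    have hε0 : 0 < ε := by linarith [hε.1]
    have hx := HX_one h1 (k + 1) hm hm2 (ε ^ classNumber K) (by positivity) hR a b hab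
    rw [hk1] at hx
    have hL : legendreSym p 2 = quadraticChar (ZMod p) 2 := by unfold legendreSym; push_cast; rfl
    have hq : ((quadraticChar (ZMod p) 2 : ℤ) : ℂ) ≠ 0 := by
      rw [quad_two h1 (k + 1) hm]
      exact pow_ne_zero _ (by norm_num)
    have hp4 : ((p : ℂ) - 4) ≠ 0 := by
      intro h0
      have : (p : ℂ) = (4 : ℕ) := by push_cast; linear_combination h0
      have : p = 4 := by exact_mod_cast this
      omega
    have hne : ((quadraticChar (ZMod p) 2 : ℤ) : ℂ) * 2 ^ k * (2 * (b : ℂ) - a) ≠ 0 ∨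
        ((quadraticChar (ZMod p) 2 : ℤ) : ℂ) * 2 ^ k * (p * (b : ℂ) - 2 * a) ≠ 0 := by
      by_contra hcon
      push Not at hcon
      obtain ⟨g1, g2⟩ := hcon
      have g1' := (mul_eq_zero.mp g1).resolve_left (mul_ne_zero hq h2k)
      have g2' := (mul_eq_zero.mp g2).resolve_left (mul_ne_zero hq h2k)
      have g3 : (b : ℂ) * ((p : ℂ) - 4) = 0 := by linear_combination g2' - 2 * g1'
      have g4 : (b : ℂ) = 0 := (mul_eq_zero.mp g3).resolve_right hp4
      have g5 : (a : ℂ) = 0 := by rw [g4] at g1'; linear_combination -g1'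
      have g4' : b = 0 := by exact_mod_cast g4
      have g5' : a = 0 := by exact_mod_cast g5
      rw [g4', g5'] at hab
      have : 0 < ε ^ classNumber K := by positivity
      rw [hab] at this
      simp at this
    rw [D_eq p k hm _ _ hx hne, hL]
    ring
  · intro h3 x y z w
    have hx := HX_three h3 (k + 1) hm hm2
    rw [hk1] at hx
    rw [D_eq p k hm _ _ hx (Or.inl (neg_ne_zero.2 h2k))]
    ring

end Pool.Agent.Results.MP_29211c_nt.QOne
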